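import Pool.Agent.H380TR.Base

/-!
# Free, level-transitive transducer groups: the whole group is bireversible

Let `A` be an invertible transducer with finitely many states over a finite alphabet whose group
`G` is free, not commutative and transitive on the letters (for example level-transitive). Then no
element of `G` other than `1` acts on the continuations of some word by a change of prefix, and
every transducer, not only `A`, whose states act by elements of `G` is bireversible.
-/

set_option autoImplicit false

namespace Pool.Agent.Results.MP_1d7ced_al.WholeGroup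

open Pool.Agent.H380TR Pool.Agent.H380TR.Tr Pool.Agent.H380TR.Tr.InvTransducer

universe u

section lemmas

variable {Q X : Type*} (A : InvTransducer Q X)

theorem prefix_pres (u : List X) : ∀ (k : A.group) (w : List X),
    ∃ s, (k : Equiv.Perm (List X)) (u ++ w) = (k : Equiv.Perm (List X)) u ++ s := by
  induction u with
  | nil =>
    intro k w
    refine ⟨(k : Equiv.Perm (List X)) w, ?_⟩
    rw [A.apply_nil, List.nil_append, List.nil_append]
  | cons x u ih =>
    intro k w
    obtain ⟨s, hs⟩ := ih (A.sect k x) w
    refine ⟨s, ?_⟩
    rw [List.cons_append, A.apply_cons, A.apply_cons, hs, List.cons_append]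

theorem prefix_change (key : ∀ (f : A.group) (x : X), A.sect f x = 1 → f = 1) (u : List X) :
    ∀ (g : A.group) (v : List X),
      (∀ w, (g : Equiv.Perm (List X)) (u ++ w) = v ++ w) → g = 1 := by
  induction u with
  | nil =>
    intro g v h
    have hv : v = [] := by
      have := h []
      rw [List.append_nil, List.append_nil, A.apply_nil] at this
      exact this.symm
    subst hv
    apply Subtype.ext
    ext1 w
    exact h w
  | cons x u ih =>
    intro g v h
    have h0 := h []
    rw [List.append_nil, List.append_nil, A.apply_cons] at h0
    subst h0
    apply key g x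
    apply ih _ ((A.sect g x : Equiv.Perm (List X)) u)
    intro w
    have h1 := h w
    rw [List.cons_append, A.apply_cons, List.cons_append, List.cons.injEq] at h1
    exact h1.2

end lemmas

/-- **Theorem.** Let `A` be an invertible transducer with finitely many states over a finite
alphabet. Suppose that the group `G` generated by its states is free and not commutative, and
transitive on the words of length one (for example because it is transitive on every level of the
tree). Then:
(1) if `g ∈ G` and there are words `u`, `v` with `g (u w) = v w` for all words `w`, then `g = 1`;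
in particular no `g ≠ 1` fixes all the continuations of some word;
(2) if `g, h ∈ G` and `g`, `h` act in the same way after some word `u` (with possibly different
images of `u`), then `g = h`;
(3) the minimal transducer of `A` is bireversible, and so is the minimal transducer of EVERY
invertible transducer `B` with finitely many states all of whose states act by elements of `G`
(its group may be commutative or not transitive); if the states of `B` act in different ways then
`B` itself is bireversible. -/
theorem result {Q X : Type u} [Finite Q] [Finite X] (A : InvTransducer Q X)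
    (hfree : IsFreeGroup A.group) (hnc : ∃ g h : A.group, g * h ≠ h * g)
    (htrans : ∀ x y : X, ∃ g ∈ A.group, g [x] = [y]) :
    (∀ g ∈ A.group, ∀ u v : List X, (∀ w, g (u ++ w) = v ++ w) → g = 1) ∧
    (∀ g ∈ A.group, ∀ h ∈ A.group, ∀ u : List X,
      (∀ w, ∃ s : List X, g (u ++ w) = g u ++ s ∧ h (u ++ w) = h u ++ s) → g = h) ∧
    A.minimal.Bireversible ∧
    (∀ (P : Type u) [Finite P] (B : InvTransducer P X), B.group ≤ A.group →
      B.minimal.Bireversible ∧ (Function.Injective B.act → B.Bireversible)) := by
  have key := eq_one_of_sect A hfree hnc htrans
  have hpre : ∀ g ∈ A.group, ∀ u v : List X, (∀ w, g (u ++ w) = v ++ w) → g = 1 := by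
    intro g hg u v h
    exact congrArg Subtype.val (prefix_change A key u ⟨g, hg⟩ v h)
  have hall : ∀ (P : Type u) [Finite P] (B : InvTransducer P X), B.group ≤ A.group →
      B.minimal.Bireversible ∧ (Function.Injective B.act → B.Bireversible) := by
    intro P _ B hB
    let b : P → A.group := fun p => ⟨B.perm p, hB (Subgroup.subset_closure ⟨p, rfl⟩)⟩
    have root_b : ∀ p x, A.root (b p) x = B.out p x := fun p x =>
      A.root_eq (w := []) (v := []) rfl
    have sect_b : ∀ p x, A.sect (b p) x = b (B.δ p x) := fun p x =>
      A.sect_eq fun _ => ⟨_, rfl⟩
    have h1 : ∀ p q a, B.act (B.δ p a) = B.act (B.δ q a) → B.act p = B.act q := by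
      intro p q a h
      have h2 : b (B.δ p a) = b (B.δ q a) := Subtype.ext (B.perm_eq_iff.mpr h)
      have h3 : b p * (b q)⁻¹ = 1 := by
        apply key _ (A.root (b q) a)
        have e1 := A.ss.sec_mul (b p) (b q)⁻¹ (A.ss.act (b q) a)
        rw [A.ss.act_inv_act, A.ss.sec_inv] at e1
        have e2 : A.ss.sec (b p) a = A.ss.sec (b q) a := by
          rw [A.ss_sec, A.ss_sec, sect_b, sect_b, h2]
        rw [e2, mul_inv_cancel] at e1
        exact e1
      have h4 : b p = b q := mul_inv_eq_one.mp h3
      exact B.perm_eq_iff.mp (congrArg Subtype.val h4)
    have h2 : ∀ p q a a', B.out p a = B.out q a' → B.act (B.δ p a) = B.act (B.δ q a') →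
        B.act p = B.act q := by
      intro p q a a' hout h
      have h2 : b (B.δ p a) = b (B.δ q a') := Subtype.ext (B.perm_eq_iff.mpr h)
      have h3 : (b p)⁻¹ * b q = 1 := by
        apply key _ a'
        have e1 := A.ss.sec_mul (b p)⁻¹ (b q) a'
        have e3 : A.ss.act (b q) a' = A.ss.act (b p) a := by
          rw [A.ss_act, A.ss_act, root_b, root_b, hout]
        rw [e3, A.ss.sec_inv] at e1
        have e2 : A.ss.sec (b p) a = A.ss.sec (b q) a' := by
          rw [A.ss_sec, A.ss_sec, sect_b, sect_b, h2]
        rw [e2, inv_mul_cancel] at e1
        exact e1
      have h4 : b p = b q := inv_mul_eq_one.mp h3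
      exact B.perm_eq_iff.mp (congrArg Subtype.val h4)
    refine ⟨⟨fun a => ?_, fun c => ?_⟩, fun hinj => ⟨fun a => ?_, fun c => ?_⟩⟩
    · apply Finite.injective_iff_bijective.mp
      intro c c' h
      induction c using Quotient.inductionOn with
      | h p =>
        induction c' using Quotient.inductionOn with
        | h q =>
          have h3 : (Quotient.mk B.sameAction (B.δ p a)) = Quotient.mk B.sameAction (B.δ q a) := h
          have h4 : B.act (B.δ p a) = B.act (B.δ q a) := Quotient.exact h3
          exact Quotient.sound (s := B.sameAction) (h1 p q a h4)
    · apply Finite.injective_iff_bijective.mp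
      intro d d' h
      induction d using Quotient.inductionOn with
      | h p =>
        induction d' using Quotient.inductionOn with
        | h q =>
          have h3 : (Quotient.mk B.sameAction (B.δ p ((B.out p).symm c))) =
            Quotient.mk B.sameAction (B.δ q ((B.out q).symm c)) := h
          have h4 : B.act (B.δ p ((B.out p).symm c)) = B.act (B.δ q ((B.out q).symm c)) :=
            Quotient.exact h3
          exact Quotient.sound (s := B.sameAction) (h2 p q _ _ (by simp) h4)
    · apply Finite.injective_iff_bijective.mp
      intro p q h
      exact hinj (h1 p q a (congrArg B.act h))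
    · apply Finite.injective_iff_bijective.mp
      intro p q h
      exact hinj (h2 p q _ _ (by simp) (congrArg B.act h))
  refine ⟨hpre, ?_, ?_, hall⟩
  · intro g hg h hh u huw
    have h1 : g * h⁻¹ = 1 := by
      apply hpre _ (A.group.mul_mem hg (A.group.inv_mem hh)) (h u) (g u)
      intro w
      obtain ⟨w', hw'⟩ := prefix_pres A (h u) ⟨h⁻¹, A.group.inv_mem hh⟩ w
      have e1 : h⁻¹ (h u) = u := h.symm_apply_apply u
      have e2 : h⁻¹ (h u ++ w) = u ++ w' := by
        have : h⁻¹ (h u ++ w) = h⁻¹ (h u) ++ w' := hw'
        rw [this, e1]
      have e3 : h (u ++ w') = h u ++ w := by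
        rw [← e2]
        exact h.apply_symm_apply _
      obtain ⟨s, hs1, hs2⟩ := huw w'
      rw [e3] at hs2
      have hs3 : w = s := List.append_cancel_left hs2
      rw [Equiv.Perm.mul_apply, e2, hs1, ← hs3]
    exact mul_inv_eq_one.mp h1
  · exact (hall Q A le_rfl).1

end Pool.Agent.Results.MP_1d7ced_al.WholeGroup
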